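import Pool.Agent.H75.ERG.Targets

/-!
# Row C_OMM: the oscillation is measurable
-/

set_option autoImplicit false

namespace Pool.Agent.H39.EG

open MeasureTheory Set Metric Filter Topology Pool.Agent.H93.BL
open Pool.Agent.H93.EN (av md rf chi gchi Bd Ml Nl Inv Agr sg VV Chart LS Phi)
open Pool.Agent.H93.EG (InvG Sm gN hN nrm)
open Pool.Agent.H75.ERG

theorem omm_meas (F : ℂ → ℂ → ℝ) (hF : Measurable (Function.uncurry F)) (δ : ℝ) :
    Measurable (fun p : ℂ × ℂ => ∫ y in ball p.1 δ, |F y p.2 - F p.1 p.2|) := by
  classical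
  have h1 : (fun p : ℂ × ℂ => ∫ y in ball p.1 δ, |F y p.2 - F p.1 p.2|) =
      fun p : ℂ × ℂ => ∫ y, (if dist y p.1 < δ then |F y p.2 - F p.1 p.2| else 0) := by
    funext p
    rw [← integral_indicator isOpen_ball.measurableSet]
    rfl
  rw [h1]
  have h2 : Measurable (fun q : (ℂ × ℂ) × ℂ =>
      (if dist q.2 q.1.1 < δ then |F q.2 q.1.2 - F q.1.1 q.1.2| else 0)) := by
    refine Measurable.ite ?_ ?_ measurable_const
    · exact (isOpen_lt (continuous_snd.dist (continuous_fst.comp continuous_fst))
        continuous_const).measurableSet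
    · have h3 : Measurable (fun q : (ℂ × ℂ) × ℂ => F q.2 q.1.2) :=
        hF.comp (measurable_snd.prodMk (measurable_snd.comp measurable_fst))
      have h4 : Measurable (fun q : (ℂ × ℂ) × ℂ => F q.1.1 q.1.2) := hF.comp measurable_fst
      exact (h3.sub h4).abs
  exact h2.stronglyMeasurable.integral_prod_right.measurable

theorem omm : T_OMM := by
  classical
  intro ι P F hF δ hδ
  have hbd := hF.bd
  have hδ2 : 0 < δ ^ 2 := by positivity
  refine ⟨?_, fun x w => ?_⟩
  · have h0 : Function.uncurry (om P F δ) = fun p : ℂ × ℂ =>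
        if infDist p.1 (P.Ωᶜ) ≤ δ then 4 else (δ ^ 2)⁻¹ * ∫ y in ball p.1 δ, |F y p.2 - F p.1 p.2| := by
      funext p
      rfl
    rw [h0]
    refine Measurable.ite ?_ measurable_const ?_
    · exact (isClosed_le ((continuous_infDist_pt _).comp continuous_fst)
        continuous_const).measurableSet
    · exact (omm_meas F hF.meas δ).const_mul _
  · unfold om
    split_ifs with h
    · exact ⟨by norm_num, le_rfl⟩
    · have hnn : 0 ≤ ∫ y in ball x δ, |F y w - F x w| :=
        integral_nonneg fun y => abs_nonneg _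
      have hle : ∫ y in ball x δ, |F y w - F x w| ≤ Real.pi * δ ^ 2 := by
        have h1 : ‖∫ y in ball x δ, |F y w - F x w|‖ ≤ 1 * (volume.real (ball x δ)) := by
          refine norm_setIntegral_le_of_norm_le_const measure_ball_lt_top fun y _ => ?_
          rw [Real.norm_eq_abs, abs_abs, abs_le]
          have b1 := hbd y w
          have b2 := hbd x w
          constructor <;> linarith [b1.1, b1.2, b2.1, b2.2]
        have h2 : volume.real (ball x δ) = Real.pi * δ ^ 2 := by
          rw [Measure.real, Complex.volume_ball]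
          rw [ENNReal.toReal_mul, ENNReal.toReal_pow, ENNReal.toReal_ofReal hδ.le]
          rw [mul_comm]
          rfl
        rw [Real.norm_of_nonneg hnn, h2, one_mul] at h1
        exact h1
      refine ⟨by positivity, ?_⟩
      rw [inv_mul_le_iff₀ hδ2]
      calc _ ≤ Real.pi * δ ^ 2 := hle
        _ ≤ 4 * δ ^ 2 := by
            have := Real.pi_le_four
            gcongr
        _ = δ ^ 2 * 4 := by ring

end Pool.Agent.H39.EG
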